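import Pool.Agent.Y834.BF.Uni

/-!
# The product of Birch and Swinnerton-Dyer for almost all elliptic curves, at all heights at once

Let `P(x) = ∏_{p ≤ x, p ∤ 16(4a³+27b²)} #E(𝔽_p)/p` be the original product of Birch and
Swinnerton-Dyer of the curve `E = E_{a,b} : y² = x³ + a x + b`.  The asymptotic of Q1 is
`P(x) ∼ A (log x)^r` with the integer `r = rank E(ℚ)`.  It is shown, unconditionally, that for
almost all elliptic curves over `ℚ` nothing of this kind is visible at any height below a power of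
the conductor: there the exponent is `1/2`.

Say that `E` follows the law at the height `x` if
`|log P(x) - (1/2) log log x| ≤ √(log log x · log log log x)` and, for ALL integers `r ≥ 0`,
`P(x) / (log x)^r` is outside `[(log x)^{-1/3}, (log x)^{1/3}]`.  For every `δ > 0` there is `X₀`
such that for all `A`, `M` and `H`, all but `2 δ A H` of the curves with `0 < |a| ≤ A` and
`M < b ≤ M + H` follow the law at ALL heights `x ≥ X₀` with `2 x¹² ≤ H`.  This remains true for each
`a` separately, as long as the sum of the reciprocals of the prime divisors of `a` is bounded.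

The proof is a maximal inequality (over all `x` in a range of unbounded length on the scale
`log log x`): fourth moments of all blocks of primes on intervals, and a bisection argument.
-/

set_option autoImplicit false

namespace Pool.Agent.Results.MP_3283e1_nt.FamilyLaw

open Finset

/-- `#E(𝔽_p)` for `E : y² = x³ + a x + b` and `p ∤ 16(4a³+27b²)`: the affine points and the point
at infinity. -/
noncomputable def points (a b : ℤ) (p : ℕ) : ℕ :=
  Nat.card {q : ZMod p × ZMod p // q.2 ^ 2 = q.1 ^ 3 + (a : ZMod p) * q.1 + (b : ZMod p)} + 1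

/-- `P(x)`, the product of `#E(𝔽_p)/p` over the primes `p ≤ x` with `p ∤ 16(4a³+27b²)`. -/
noncomputable def product (a b : ℤ) (x : ℕ) : ℝ :=
  ∏ p ∈ (Ioc 0 x).filter (fun p : ℕ => p.Prime ∧ ¬ ((p : ℤ) ∣ 16 * (4 * a ^ 3 + 27 * b ^ 2))),
    (points a b p : ℝ) / p

/-- `log log x` -/
noncomputable def loglog (x : ℕ) : ℝ := Real.log (Real.log x)

/-- `y² = x³ + a x + b` follows the law at the height `x` -/
def Follows (a b : ℤ) (x : ℕ) : Prop :=
  |Real.log (product a b x) - 1 / 2 * loglog x| ≤ √(loglog x * Real.log (loglog x)) ∧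
    ∀ r : ℕ, 1 / 3 * loglog x < |Real.log (product a b x) - r * loglog x|

/-- the sum of the reciprocals of the prime divisors of `a` -/
noncomputable def primeSum (a : ℤ) : ℝ := ∑ p ∈ a.natAbs.primeFactors, 1 / (p : ℝ)

open Classical in
/-- the number of `b` in `(M, M + H]` with the property `S` -/
noncomputable def count (M : ℤ) (H : ℕ) (S : ℤ → Prop) : ℝ :=
  (((Ioc M (M + H)).filter S).card : ℝ)

/-- the number of pairs `a, b` with `0 < |a| ≤ A`, `M < b ≤ M + H` and the property `S` -/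
noncomputable def countPairs (A : ℕ) (M : ℤ) (H : ℕ) (S : ℤ → ℤ → Prop) : ℝ :=
  ∑ a ∈ (Icc (-(A : ℤ)) A).filter (fun a => a ≠ 0), count M H (S a)

lemma product_eq (a b : ℤ) (x : ℕ) : product a b x = Pool.Agent.Y834.BF.bsd a b x := by
  unfold product Pool.Agent.Y834.BF.bsd
  refine prod_congr rfl fun p _ => ?_
  unfold points Pool.Agent.Y834.BF.aff
  push_cast
  rfl

lemma count_mono {M : ℤ} {H : ℕ} {S T : ℤ → Prop} (h : ∀ b, S b → T b) :
    count M H S ≤ count M H T := by
  classical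
  unfold count
  have : (Ioc M (M + H)).filter S ⊆ (Ioc M (M + H)).filter T := by
    intro b hb
    rw [mem_filter] at hb ⊢
    exact ⟨hb.1, h b hb.2⟩
  exact_mod_cast card_le_card this

lemma count_le (M : ℤ) (H : ℕ) (S : ℤ → Prop) : count M H S ≤ H := by
  classical
  unfold count
  have h := card_le_card (filter_subset S (Ioc M (M + H)))
  rw [Pool.Agent.Y834.BF.card_Ioc_H] at h
  exact_mod_cast h

/-- the first property implies the second -/
lemma second : ∃ X₁ : ℕ, ∀ (a b : ℤ) (x : ℕ), X₁ ≤ x →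
    |Real.log (product a b x) - 1 / 2 * loglog x| ≤ √(loglog x * Real.log (loglog x)) →
      ∀ r : ℕ, 1 / 3 * loglog x < |Real.log (product a b x) - r * loglog x| := by
  have h2 := Real.isLittleO_log_id_atTop.bound (show (0 : ℝ) < 1 / 49 by norm_num)
  obtain ⟨L₀, hL₀⟩ := Filter.eventually_atTop.1 h2
  obtain ⟨X₁, hX₁⟩ := exists_nat_ge (Real.exp (Real.exp (max L₀ 1)))
  refine ⟨X₁, fun a b x hx hb r => ?_⟩
  have hx1 : Real.exp (Real.exp (max L₀ 1)) ≤ x := by
    refine hX₁.trans ?_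
    exact_mod_cast hx
  have hx0 : (0 : ℝ) < x := lt_of_lt_of_le (Real.exp_pos _) hx1
  have h3 : Real.exp (max L₀ 1) ≤ Real.log x := (Real.le_log_iff_exp_le hx0).2 hx1
  have h4 : max L₀ 1 ≤ loglog x :=
    (Real.le_log_iff_exp_le (lt_of_lt_of_le (Real.exp_pos _) h3)).2 h3
  have h5 : 1 ≤ loglog x := (le_max_right _ _).trans h4
  have h6 := hL₀ _ ((le_max_left _ _).trans h4)
  rw [id, Real.norm_eq_abs, Real.norm_eq_abs, abs_of_nonneg (Real.log_nonneg h5),
    abs_of_pos (by linarith : 0 < loglog x)] at h6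
  set L := loglog x with hL
  set y := Real.log (product a b x) with hy
  have h7 : √(L * Real.log L) ≤ L / 7 := by
    rw [Real.sqrt_le_left (by linarith)]
    nlinarith
  have h8 : 1 / 2 * L ≤ |(r : ℝ) - 1 / 2| * L := by
    refine mul_le_mul_of_nonneg_right ?_ (by linarith)
    rcases Nat.eq_zero_or_pos r with h | h
    · rw [h]
      norm_num [abs_of_pos, abs_of_neg]
    · have : (1 : ℝ) ≤ r := by exact_mod_cast h
      rw [abs_of_nonneg (by linarith)]
      linarith
  have h9 : |(r : ℝ) - 1 / 2| * L ≤ |y - r * L| + |y - 1 / 2 * L| := by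
    rw [← abs_of_pos (by linarith : 0 < L), ← abs_mul, abs_of_pos (by linarith : 0 < L)]
    have h10 : ((r : ℝ) - 1 / 2) * L = (y - 1 / 2 * L) - (y - r * L) := by ring
    rw [h10]
    refine (abs_sub _ _).trans ?_
    linarith
  linarith

/-- **The product of Birch and Swinnerton-Dyer for almost all elliptic curves.** -/
theorem result :
    (∀ δ : ℝ, 0 < δ → ∃ X₀ : ℕ, ∀ (A : ℕ) (M : ℤ) (H : ℕ),
      countPairs A M H (fun a b => ∃ x : ℕ, X₀ ≤ x ∧ 2 * x ^ 12 ≤ H ∧ ¬ Follows a b x) ≤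
        δ * (2 * A * H)) ∧
    (∀ κ δ : ℝ, 0 < δ → ∃ X₀ : ℕ, ∀ a : ℤ, a ≠ 0 → primeSum a ≤ κ → ∀ (M : ℤ) (H : ℕ),
      count M H (fun b => ∃ x : ℕ, X₀ ≤ x ∧ 2 * x ^ 12 ≤ H ∧ ¬ Follows a b x) ≤ δ * H) := by
  classical
  have h1 : ∀ κ δ : ℝ, 0 < δ → ∃ X₀ : ℕ, ∀ a : ℤ, a ≠ 0 → primeSum a ≤ κ → ∀ (M : ℤ) (H : ℕ),
      count M H (fun b => ∃ x : ℕ, X₀ ≤ x ∧ 2 * x ^ 12 ≤ H ∧ ¬ Follows a b x) ≤ δ * H := by
    intro κ δ hδ
    obtain ⟨X₀, -, hX⟩ := Pool.Agent.Y834.BF.law (le_max_right κ 0) hδ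
    obtain ⟨X₁, hX₁⟩ := second
    refine ⟨X₀ + X₁, fun a ha hκ M H => ?_⟩
    have h2 := hX a ha (show Pool.Agent.Y834.BF.om a ≤ max κ 0 from hκ.trans (le_max_left _ _)) M H
    refine le_trans (count_mono (T := fun b => ∃ x : ℕ, X₀ ≤ x ∧ 2 * x ^ 12 ≤ H ∧
      √(loglog x * Real.log (loglog x)) < |Real.log (product a b x) - 1 / 2 * loglog x|) ?_) ?_
    · rintro b ⟨x, hx, hxH, hf⟩
      refine ⟨x, by omega, hxH, ?_⟩
      by_contra h3
      push Not at h3
      exact hf ⟨h3, hX₁ a b x (by omega) h3⟩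
    · unfold count loglog
      simp only [product_eq]
      exact h2
  refine ⟨?_, h1⟩
  intro δ hδ
  obtain ⟨X₀, hX⟩ := h1 (2 / δ) (δ / 2) (by positivity)
  refine ⟨X₀, fun A M H => ?_⟩
  set S : ℤ → ℤ → Prop := fun a b => ∃ x : ℕ, X₀ ≤ x ∧ 2 * x ^ 12 ≤ H ∧ ¬ Follows a b x with hS
  have hbad := Pool.Agent.Y834.BF.bad_a A (κ := 2 / δ) (by positivity)
  have hcard := Pool.Agent.Y834.BF.card_nz A
  change ∑ a ∈ Pool.Agent.Y834.BF.nz A, count M H (S a) ≤ _
  rw [← sum_filter_add_sum_filter_not (Pool.Agent.Y834.BF.nz A)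
    (fun a => 2 / δ < Pool.Agent.Y834.BF.om a)]
  have e1 : ∑ a ∈ (Pool.Agent.Y834.BF.nz A).filter (fun a => 2 / δ < Pool.Agent.Y834.BF.om a),
      count M H (S a) ≤ (δ * A) * H := by
    calc _ ≤ ∑ a ∈ (Pool.Agent.Y834.BF.nz A).filter
          (fun a => 2 / δ < Pool.Agent.Y834.BF.om a), (H : ℝ) :=
          sum_le_sum fun a _ => count_le M H _
      _ = (((Pool.Agent.Y834.BF.nz A).filter
          (fun a => 2 / δ < Pool.Agent.Y834.BF.om a)).card : ℝ) * H := by
          rw [sum_const, nsmul_eq_mul]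
      _ ≤ (2 * A / (2 / δ)) * H := mul_le_mul_of_nonneg_right hbad (Nat.cast_nonneg _)
      _ = (δ * A) * H := by
          field_simp
  have e2 : ∑ a ∈ (Pool.Agent.Y834.BF.nz A).filter
      (fun a => ¬ (2 / δ < Pool.Agent.Y834.BF.om a)), count M H (S a) ≤ (δ * A) * H := by
    calc _ ≤ ∑ a ∈ (Pool.Agent.Y834.BF.nz A).filter
          (fun a => ¬ (2 / δ < Pool.Agent.Y834.BF.om a)), (δ / 2 * H : ℝ) := by
          refine sum_le_sum fun a ha => ?_
          rw [mem_filter, Pool.Agent.Y834.BF.mem_nz] at ha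
          exact hX a ha.1.1 (not_lt.1 ha.2) M H
      _ = (((Pool.Agent.Y834.BF.nz A).filter
          (fun a => ¬ (2 / δ < Pool.Agent.Y834.BF.om a))).card : ℝ) * (δ / 2 * H) := by
          rw [sum_const, nsmul_eq_mul]
      _ ≤ ((2 * A : ℕ) : ℝ) * (δ / 2 * H) := by
          refine mul_le_mul_of_nonneg_right ?_ (by positivity)
          rw [← hcard]
          exact_mod_cast card_le_card (filter_subset _ _)
      _ = (δ * A) * H := by
          push_cast
          ring
  calc _ ≤ (δ * A) * H + (δ * A) * H := add_le_add e1 e2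
    _ = δ * (2 * A * H) := by ring

end Pool.Agent.Results.MP_3283e1_nt.FamilyLaw
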