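import Pool.Agent.Y686.RM.Main

/-!
# The original conjecture of Birch and Swinnerton-Dyer with Riesz weights of any positive real order

`E : y² = x³ + a x + b`, `a, b ∈ ℤ`, is an elliptic curve over `ℚ`, `N_p` the number of points modulo `p`.
For a real number `k ≥ 0` let

`P_k(x) = ∏_{p ≤ x, p ∤ 2Δ} (N_p / p) ^ ((1 - log p / log x) ^ k)`,

so that `P_0(x)` is the product of Birch and Swinnerton-Dyer. Let `F` be the entire continuation of the
incomplete `L`-series, `r` its order at `s = 1`, `T = √2 e^{rγ} r! / |F^{(r)}(1)|` (Goldfeld's constant) and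
`h(k) = Γ'(k+1)/Γ(k+1) + γ` (the harmonic number of order `k`).

The asymptotic formula `P_0(x) ∼ A (log x)^rank` is the original conjecture; it is deeper than the
Riemann hypothesis for `F`. We show that for every real `k > 0`, however small, the formula
`P_k(x) ∼ A (log x)^rank` is EQUIVALENT to the conjunction of the Riemann hypothesis for `F` and
`ord_{s=1} F = rank E(ℚ)`, and then `P_k(x) ∼ T e^{-r h(k)} (log x)^r` for all `k > 0` at once. For the
Riemann hypothesis alone it suffices that `P_k(x) ≤ exp(x^ε)` for one `k > 0` and all `ε > 0`, `x ≥ x₀(ε)`.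

Proof. For the implications from `P_k` with a real number `k` the mean of order `k` is turned
into the one of integral order `n ≥ k + 1` by fractional integration; there Landau's theorem applies (starting
modules `W263.BSD`). The limit under the Riemann hypothesis is in the starting modules `TH942.RZ`.
-/

set_option autoImplicit false

namespace Pool.Agent.Results.MP_3283e1_nt.RieszOrders

open Filter Topology Classical CongruenceSubgroup UpperHalfPlane
open scoped MatrixGroups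

/-- `N_p`: the number of points of `y² = x³ + a x + b` modulo `p`, with the point at infinity. -/
noncomputable def numPoints (a b : ℤ) (p : ℕ) : ℕ :=
  Nat.card {q : ZMod p × ZMod p // q.2 ^ 2 = q.1 ^ 3 + (a : ZMod p) * q.1 + (b : ZMod p)} + 1

/-- `p` is a prime that does not divide `2 Δ`, where `Δ = -4 a³ - 27 b²`. -/
def Good (a b : ℤ) (p : ℕ) : Prop :=
  p.Prime ∧ ¬ ((p : ℤ) ∣ 2 * (-4 * a ^ 3 - 27 * b ^ 2))

/-- `P_k(x) = ∏_{p ≤ x, p ∤ 2Δ} (N_p / p) ^ ((1 - log p / log x) ^ k)` -/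
noncomputable def P (a b : ℤ) (k x : ℝ) : ℝ :=
  ∏ p ∈ (Finset.range (⌊x⌋₊ + 1)).filter (Good a b),
    ((numPoints a b p : ℝ) / p) ^ ((1 - Real.log p / Real.log x) ^ k)

/-- `F` is an entire function which for `Re s > 3/2` is the incomplete `L`-series
`∏_{p ∤ 2Δ} (1 - a_p p^{-s} + p^{1-2s})⁻¹`, `a_p = p + 1 - N_p`, of `y² = x³ + a x + b`. -/
def IsLSeries (a b : ℤ) (F : ℂ → ℂ) : Prop :=
  Differentiable ℂ F ∧ ∀ s : ℂ, (3 : ℝ) / 2 < s.re →
    HasProd (fun p : ℕ => if Good a b p then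
      (1 - ((p : ℂ) + 1 - (numPoints a b p : ℂ)) * (p : ℂ) ^ (-s) + (p : ℂ) ^ (1 - 2 * s))⁻¹ else 1)
      (F s)

/-- The `n`-th Fourier coefficient of `f`. -/
noncomputable def coef {N : ℕ} (f : CuspForm (Gamma0 N : Subgroup (GL (Fin 2) ℝ)) 2) (n : ℕ) : ℂ :=
  (qExpansion 1 f).coeff n

/-- `f ∈ S_2(Γ₀(N))` is the newform of the elliptic curve `E : y² = x³ + a x + b` of conductor `N`: the
Fourier coefficients `c(n)` of `f` are real with `c(1) = 1`, they satisfy the Hecke relations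
`c(mn) = c(m) c(n)` for coprime `m`, `n` and `c(p^(j+2)) = c(p) c(p^(j+1)) - p c(p^j)` (without the last
term if `p ∣ N`), `c(p) = a_p = p + 1 - N_p` for all primes `p ∤ 2Δ`, `|c(p)| ≤ 2 √p` for all
`p ∤ N` (Hasse) and `c(p) = 0, 1, -1` for `p ∣ N`. -/
structure IsNewformOf (a b : ℤ) (N : ℕ) (f : CuspForm (Gamma0 N : Subgroup (GL (Fin 2) ℝ)) 2) :
    Prop where
  one : coef f 1 = 1
  real : ∀ n, (coef f n).im = 0
  mul : ∀ m n : ℕ, Nat.Coprime m n → coef f (m * n) = coef f m * coef f n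
  pow : ∀ p j : ℕ, p.Prime → coef f (p ^ (j + 2)) = coef f p * coef f (p ^ (j + 1)) -
      (if p ∣ N then 0 else (p : ℂ) * coef f (p ^ j))
  points : ∀ p : ℕ, Good a b p → coef f p = (p : ℂ) + 1 - (numPoints a b p : ℂ)
  good : ∀ p : ℕ, p.Prime → ¬ p ∣ N → ‖coef f p‖ ≤ 2 * Real.sqrt p
  bad : ∀ p : ℕ, p.Prime → p ∣ N → coef f p = 0 ∨ coef f p = 1 ∨ coef f p = -1

/-- Goldfeld's constant `T = √2 e^{rγ} r! / |F^{(r)}(1)|` (zero if `F^{(r)}(1) = 0`) -/
noncomputable def T (F : ℂ → ℂ) (r : ℕ) : ℝ :=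
  √2 * Real.exp (r * Real.eulerMascheroniConstant) * (r.factorial : ℝ) / ‖iteratedDeriv r F 1‖

/-- the harmonic number `h(k) = Γ'(k+1)/Γ(k+1) + γ` of real order `k` -/
noncomputable def harm (k : ℝ) : ℝ :=
  deriv Real.Gamma (k + 1) / Real.Gamma (k + 1) + Real.eulerMascheroniConstant

/-- the rank of the group of rational points of `y² = x³ + a x + b` -/
noncomputable def rank (a b : ℤ) : ℕ := Module.finrank ℤ
  (({ a₁ := 0, a₂ := 0, a₃ := 0, a₄ := (a : ℚ), a₆ := (b : ℚ) } : WeierstrassCurve ℚ).toAffine.Point)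

/-! ### Translation to the definitions of the imported files -/

variable {a b : ℤ}

theorem P_eq {k x : ℝ} : P a b k x = Real.exp (Pool.Agent.TH942.RZ.rz a b k x) := by
  unfold P Pool.Agent.TH942.RZ.rz
  rw [Real.exp_sum]
  refine Finset.prod_congr rfl fun p hp => ?_
  have h2 : Good a b p := (Finset.mem_filter.1 hp).2
  have hp0 : (0 : ℝ) < p := by exact_mod_cast h2.1.pos
  have h3 : (0 : ℝ) < (numPoints a b p : ℝ) := by
    unfold numPoints
    positivity
  rw [Real.rpow_def_of_pos (div_pos h3 hp0), mul_comm]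
  unfold numPoints Pool.Agent.W263.BSD.pointCount
  push_cast
  rfl

theorem numPoints_sub (p : ℕ) : (p : ℂ) + 1 - (numPoints a b p : ℂ) =
    (p : ℂ) - (Pool.Agent.W263.BSD.pointCount a b p : ℂ) := by
  unfold numPoints Pool.Agent.W263.BSD.pointCount
  push_cast
  ring

theorem isLSeries {F : ℂ → ℂ} (hF : IsLSeries a b F) :
    Pool.Agent.W263.BSD.IsLSeries a b F := by
  refine ⟨hF.1, fun s hs => ?_⟩
  have h := hF.2 s hs
  simp only [numPoints_sub] at h
  exact h

theorem hecke {N : ℕ} {f : CuspForm (Gamma0 N : Subgroup (GL (Fin 2) ℝ)) 2}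
    (hf : IsNewformOf a b N f) : Pool.Agent.TH941.Hecke f where
  one := hf.one
  real := hf.real
  mul := hf.mul
  pow := hf.pow
  good := hf.good
  bad := fun p hp h => by
    rcases hf.bad p hp h with h1 | h1 | h1
    · have h2 : ‖coef f p‖ ≤ 1 := by rw [h1]; simp
      exact h2
    · have h2 : ‖coef f p‖ ≤ 1 := by rw [h1]; simp
      exact h2
    · have h2 : ‖coef f p‖ ≤ 1 := by rw [h1]; simp
      exact h2

/-- **The conjecture of Birch and Swinnerton-Dyer with Riesz weights of any positive order.** -/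
theorem result (a b : ℤ) (hΔ : 4 * a ^ 3 + 27 * b ^ 2 ≠ 0) (F : ℂ → ℂ) (hF : IsLSeries a b F)
    (N : ℕ) [NeZero N] (f : CuspForm (Gamma0 N : Subgroup (GL (Fin 2) ℝ)) 2)
    (hf : IsNewformOf a b N f) :
    List.TFAE [
      (∀ s : ℂ, 1 < s.re → F s ≠ 0) ∧ analyticOrderAt F 1 = rank a b,
      0 < T F (rank a b) ∧ ∀ k : ℝ, 0 < k →
        Tendsto (fun x : ℝ => P a b k x / Real.log x ^ rank a b) atTop
          (𝓝 (T F (rank a b) * Real.exp (-(rank a b * harm k)))),
      ∃ k A : ℝ, 0 < k ∧ A ≠ 0 ∧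
        Tendsto (fun x : ℝ => P a b k x / Real.log x ^ rank a b) atTop (𝓝 A),
      ∃ k : ℝ, 0 < k ∧
        Tendsto (fun x : ℝ => Real.log (P a b k x) / Real.log (Real.log x)) atTop (𝓝 (rank a b))] ∧
    ∃ r : ℕ, analyticOrderAt F 1 = r ∧ 0 < T F r ∧ List.TFAE [
      ∀ s : ℂ, 1 < s.re → F s ≠ 0,
      ∀ k : ℝ, 0 < k → Tendsto (fun x : ℝ => P a b k x / Real.log x ^ r) atTop
        (𝓝 (T F r * Real.exp (-(r * harm k)))),
      ∃ k ρ A : ℝ, 0 < k ∧ A ≠ 0 ∧
        Tendsto (fun x : ℝ => P a b k x / Real.log x ^ ρ) atTop (𝓝 A),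
      ∃ k : ℝ, 0 < k ∧ ∀ ε : ℝ, 0 < ε → ∀ᶠ x : ℝ in atTop, P a b k x ≤ Real.exp (x ^ ε)] := by
  have hF' := isLSeries hF
  obtain ⟨r, hr⟩ := Pool.Agent.W263.BSD.order_finite hF'
  have H := Pool.Agent.Y686.TW.full_of_newform (hecke hf) hΔ
    (fun p hp => (hf.points p hp).trans (numPoints_sub p)) hF' hr
  refine ⟨?_, r, hr, Pool.Agent.Y686.TW.TC_pos hF' hr, ?_⟩
  · have h := Pool.Agent.Y686.RM.tfae_order H (rank a b)
    have e1 : analyticOrderAt F 1 = rank a b ↔ r = rank a b := by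
      rw [hr]
      exact Nat.cast_inj
    simp only [P_eq, Real.log_exp, e1]
    exact h
  · have h := Pool.Agent.Y686.RM.tfae_zeros H
    simp only [P_eq, Real.exp_le_exp]
    exact h

end Pool.Agent.Results.MP_3283e1_nt.RieszOrders
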